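import Pool.Agent.Lib.MP_f12a7c_lc.Final

/-!
# Equality of Cohen generic extensions is hyperfinite

For every countable transitive model `M` of ZFC, the relation `x E_M y ↔ M[x] = M[y]` on the space
`X_M` of the Cohen generic reals over `M` is a hyperfinite Borel equivalence relation.
-/

namespace Pool.Agent.Results.MP_f12a7c_lc.CohenHyperfinite

open Pool.Agent.Lib.MP_f12a7c_lc

/-- For every countable transitive model `M` of ZFC, the space `X_M` of the Cohen generic reals over
`M` is a standard Borel space and the relation `M[x] = M[y]` on it is hyperfinite. -/
theorem result : ∀ M : Set ZFSet.{0}, M.Countable → IsTransitiveModel M →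
    StandardBorelSpace (GenericReals M) ∧ Hyperfinite (EM M) :=
  fun M hc hM => ⟨standardBorel_genericReals M hc, hyperfinite_EM M hc hM⟩

end Pool.Agent.Results.MP_f12a7c_lc.CohenHyperfinite
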